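import Mathlib

set_option autoImplicit false

namespace Pool.Agent.PAP

variable {V : Type*} [AddCommGroup V] [Module ℝ V]

/-- finitely many of the functionals separate the points of a finite-dimensional subspace -/
lemma exists_finset_sep (f : ℕ → V →ₗ[ℝ] ℝ) (P1 : ∀ x, x ≠ 0 → {n | f n x = 0}.Finite) :
    ∀ (d : ℕ) (W : Submodule ℝ V), FiniteDimensional ℝ W → Module.finrank ℝ W ≤ d →
      ∃ M : Finset ℕ, ∀ v ∈ W, (∀ m ∈ M, f m v = 0) → v = 0 := by
  intro d
  induction d with
  | zero =>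
    intro W hW hd
    refine ⟨∅, fun v hv _ => ?_⟩
    have : W = ⊥ := Submodule.finrank_eq_zero.mp (by omega)
    rw [this] at hv
    simpa using hv
  | succ d ih =>
    intro W hW hd
    by_cases hbot : W = ⊥
    · refine ⟨∅, fun v hv _ => ?_⟩
      rw [hbot] at hv
      simpa using hv
    · obtain ⟨v, hvW, hv0⟩ := Submodule.exists_mem_ne_zero_of_ne_bot hbot
      obtain ⟨m, hm⟩ : ∃ m, f m v ≠ 0 := by
        by_contra hcon
        push Not at hcon
        have := P1 v hv0
        have h2 : {n | f n v = 0} = Set.univ := by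
          ext n; simp [hcon n]
        rw [h2] at this
        exact Set.infinite_univ this
      have hlt : W ⊓ LinearMap.ker (f m) < W := by
        refine lt_of_le_of_ne inf_le_left ?_
        intro h
        have : v ∈ W ⊓ LinearMap.ker (f m) := by rw [h]; exact hvW
        exact hm this.2
      have hfr := Submodule.finrank_lt_finrank_of_lt hlt
      have hfd : FiniteDimensional ℝ ↥(W ⊓ LinearMap.ker (f m)) :=
        Submodule.finiteDimensional_of_le inf_le_left
      obtain ⟨M, hM⟩ := ih (W ⊓ LinearMap.ker (f m)) hfd (by omega)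
      refine ⟨insert m M, fun w hw hz => ?_⟩
      apply hM w ⟨hw, hz m (Finset.mem_insert_self _ _)⟩
      intro k hk
      exact hz k (Finset.mem_insert_of_mem hk)

/-- The linear-algebra core. -/
theorem core (f : ℕ → V →ₗ[ℝ] ℝ) (u : V →ₗ[ℝ] V)
    (hfin : FiniteDimensional ℝ (LinearMap.range u))
    (P1 : ∀ x, x ≠ 0 → {n | f n x = 0}.Finite)
    (P2 : ∀ (S : Finset ℕ) (c : ℕ → ℝ), ∃ h, ∀ n ∈ S, f n h = c n)
    (C1 : ∀ x, x ≠ 0 → u x = x → ∀ h, (∀ n, f n x = 0 → f n h = 0) →
      ∀ n, f n x = 0 → f n (u h) = 0)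
    (two : ∀ m, ∃ x, x ≠ 0 ∧ u x = x ∧ f m x = 0) : False := by
  classical
  -- the sets C m
  let C : ℕ → Set ℕ := fun m => {n | ∀ x, u x = x → f m x = 0 → f n x = 0}
  have hCfin : ∀ m, (C m).Finite := by
    intro m
    obtain ⟨x, hx0, hux, hmx⟩ := two m
    exact (P1 x hx0).subset (fun n hn => hn x hux hmx)
  -- generic point
  have hgen : ∀ m, ∃ x, x ≠ 0 ∧ u x = x ∧ f m x = 0 ∧ ∀ n, f n x = 0 → n ∈ C m := by
    intro m
    -- minimal number of zeros
    let p : ℕ → Prop := fun k => ∃ x, x ≠ 0 ∧ u x = x ∧ f m x = 0 ∧ {n | f n x = 0}.ncard = k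
    have hp : ∃ k, p k := by
      obtain ⟨x, hx0, hux, hmx⟩ := two m
      exact ⟨_, x, hx0, hux, hmx, rfl⟩
    obtain ⟨x, hx0, hux, hmx, hcard⟩ := Nat.find_spec hp
    refine ⟨x, hx0, hux, hmx, ?_⟩
    intro n1 hn1
    by_contra hnot
    have hnot' : ∃ x1, u x1 = x1 ∧ f m x1 = 0 ∧ f n1 x1 ≠ 0 := by
      by_contra hcon
      push Not at hcon
      exact hnot hcon
    obtain ⟨x1, hux1, hmx1, hn1x1⟩ := hnot'
    -- choose s avoiding countably many values
    have hcount : (Set.range (fun n => - f n x / f n x1) ∪ {0}).Countable :=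
      (Set.countable_range _).union (Set.countable_singleton _)
    obtain ⟨s, hs⟩ : ∃ s : ℝ, s ∉ Set.range (fun n => - f n x / f n x1) ∪ {0} := by
      by_contra hcon
      push Not at hcon
      have : (Set.univ : Set ℝ).Countable := hcount.mono (fun s _ => hcon s)
      exact Cardinal.not_countable_real this
    have hs0 : s ≠ 0 := fun h => hs (Or.inr h)
    have hsn : ∀ n, f n (x + s • x1) = 0 → f n x = 0 ∧ f n x1 = 0 := by
      intro n hn
      rw [map_add, map_smul, smul_eq_mul] at hn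
      by_cases h1 : f n x1 = 0
      · rw [h1, mul_zero, add_zero] at hn
        exact ⟨hn, h1⟩
      · exfalso
        apply hs
        left
        refine ⟨n, ?_⟩
        show - f n x / f n x1 = s
        rw [div_eq_iff h1]
        linarith
    have hne : x + s • x1 ≠ 0 := by
      intro h0
      have : f n1 (x + s • x1) = 0 := by rw [h0, map_zero]
      exact hn1x1 (hsn n1 this).2
    have hsub : {n | f n (x + s • x1) = 0} ⊂ {n | f n x = 0} := by
      refine ⟨fun n hn => (hsn n hn).1, ?_⟩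
      intro hsup
      have : f n1 (x + s • x1) = 0 := hsup hn1
      exact hn1x1 (hsn n1 this).2
    have hlt := Set.ncard_lt_ncard hsub (P1 x hx0)
    rw [hcard] at hlt
    refine Nat.find_min hp hlt ⟨x + s • x1, hne, ?_, ?_, rfl⟩
    · rw [map_add, map_smul, hux, hux1]
    · rw [map_add, map_smul, hmx, hmx1, smul_zero, add_zero]
  have C1' : ∀ m h, (∀ n ∈ C m, f n h = 0) → f m (u h) = 0 := by
    intro m h hh
    obtain ⟨x, hx0, hux, hmx, hx⟩ := hgen m
    exact C1 x hx0 hux h (fun n hn => hh n (hx n hn)) m hmx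
  -- finitely many functionals separate the range
  obtain ⟨M, hM⟩ := exists_finset_sep f P1 _ (LinearMap.range u) hfin le_rfl
  -- the finite set S
  let S : Finset ℕ := M.biUnion (fun m => (hCfin m).toFinset)
  have hS : ∀ h, (∀ n ∈ S, f n h = 0) → u h = 0 := by
    intro h hh
    apply hM (u h) ⟨h, rfl⟩
    intro m hm
    apply C1' m h
    intro n hn
    apply hh
    simp only [S, Finset.mem_biUnion, Set.Finite.mem_toFinset]
    exact ⟨m, hm, hn⟩
  -- choose m
  obtain ⟨y0, hy00, huy0, _⟩ := two 0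
  have hbad : ({n | f n y0 = 0} ∪ ⋃ n ∈ S, C n).Finite := by
    apply (P1 y0 hy00).union
    apply Set.Finite.biUnion S.finite_toSet
    intro n _
    exact hCfin n
  obtain ⟨m, hm⟩ := hbad.exists_notMem
  have hm1 : f m y0 ≠ 0 := fun h => hm (Or.inl h)
  have hm2 : ∀ n ∈ S, m ∉ C n := by
    intro n hn hmn
    exact hm (Or.inr (Set.mem_biUnion (x := n) (by exact_mod_cast hn) hmn))
  -- for n in S ∩ C m, f n vanishes on the range
  have hZ : ∀ n ∈ S, n ∈ C m → ∀ x, u x = x → f n x = 0 := by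
    intro n hnS hnC x' hux'
    have h1 := hm2 n hnS
    have h2 : ∃ x, u x = x ∧ f n x = 0 ∧ f m x ≠ 0 := by
      by_contra hcon
      push Not at hcon
      exact h1 hcon
    obtain ⟨x, hux, hnx, hmx⟩ := h2
    have h3 := hnC (x' - (f m x' / f m x) • x) (by rw [map_sub, map_smul, hux, hux']) (by
      rw [map_sub, map_smul, smul_eq_mul, div_mul_cancel₀ _ hmx, sub_self])
    rw [map_sub, map_smul, hnx, smul_zero, sub_zero] at h3
    exact h3
  obtain ⟨h, hh⟩ := P2 (S ∪ (hCfin m).toFinset) (fun n => if n ∈ S then 0 else f n y0)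
  have e1 : u h = 0 := by
    apply hS
    intro n hn
    rw [hh n (Finset.mem_union_left _ hn), if_pos hn]
  have e2 : f m (u (h - y0)) = 0 := by
    apply C1' m
    intro n hn
    rw [map_sub, hh n (Finset.mem_union_right _ ((hCfin m).mem_toFinset.mpr hn))]
    by_cases hnS : n ∈ S
    · rw [if_pos hnS, hZ n hnS hn y0 huy0, sub_zero]
    · rw [if_neg hnS, sub_self]
  rw [map_sub, e1, huy0, zero_sub, map_neg, neg_eq_zero] at e2
  exact hm1 e2

end Pool.Agent.PAP
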