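import Mathlib
import Pool.Agent.PAP.LinAlg

set_option autoImplicit false

open Filter Topology

namespace Pool.Agent.PAP

noncomputable section

/-- real `ℓ²` -/
abbrev H : Type := lp (fun _ : ℕ => ℝ) 2

/-- evaluation points -/
def tt (n : ℕ) : ℝ := 1 / ((n : ℝ) + 2)

lemma tt_pos (n : ℕ) : 0 < tt n := by unfold tt; positivity

lemma tt_le (n : ℕ) : tt n ≤ 1 / 2 := by
  unfold tt
  apply one_div_le_one_div_of_le (by norm_num)
  have : (0 : ℝ) ≤ n := by positivity
  linarith

lemma tt_inj : Function.Injective tt := by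
  intro a b h
  unfold tt at h
  rw [one_div, one_div, inv_inj] at h
  have : (a : ℝ) = b := by linarith
  exact_mod_cast this

lemma term_eq (n k : ℕ) : ‖tt n ^ k‖ ^ (2 : ENNReal).toReal = (tt n ^ 2) ^ k := by
  rw [Real.norm_eq_abs, abs_of_nonneg (by have := tt_pos n; positivity)]
  simp only [ENNReal.toReal_ofNat, Real.rpow_ofNat]
  rw [← pow_mul, ← pow_mul, mul_comm]

lemma tsq_lt (n : ℕ) : tt n ^ 2 ≤ 1 / 4 := by
  have := tt_pos n
  have := tt_le n
  nlinarith

lemma memlp_g (n : ℕ) : Memℓp (fun k : ℕ => tt n ^ k) 2 := by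
  apply memℓp_gen
  simp only [term_eq]
  apply summable_geometric_of_lt_one (by positivity)
  have := tsq_lt n
  linarith

/-- the vector representing the evaluation at `tt n` -/
def gv (n : ℕ) : H := ⟨fun k => tt n ^ k, memlp_g n⟩

lemma gv_apply (n k : ℕ) : (gv n : ℕ → ℝ) k = tt n ^ k := rfl

/-- the evaluation functional -/
def fv (n : ℕ) : H →L[ℝ] ℝ := innerSL ℝ (gv n)

lemma fv_apply (n : ℕ) (x : H) : fv n x = inner ℝ (gv n) x := rfl

lemma fv_hasSum (n : ℕ) (x : H) : HasSum (fun k => x k * tt n ^ k) (fv n x) := by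
  have h := lp.hasSum_inner (𝕜 := ℝ) (gv n) x
  rw [fv_apply]
  exact h

lemma gv_norm_le (n : ℕ) : ‖gv n‖ ≤ 2 := by
  apply lp.norm_le_of_tsum_le (by norm_num) (by norm_num)
  simp only [gv_apply, term_eq]
  have h := tsq_lt n
  rw [tsum_geometric_of_lt_one (by positivity) (by linarith)]
  simp only [ENNReal.toReal_ofNat, Real.rpow_ofNat]
  have : (1 - tt n ^ 2)⁻¹ ≤ (3 / 4)⁻¹ := inv_anti₀ (by norm_num) (by linarith)
  norm_num at this ⊢
  linarith

lemma fv_abs_le (n : ℕ) (x : H) : |fv n x| ≤ 2 * ‖x‖ := by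
  rw [fv_apply]
  have h1 := abs_real_inner_le_norm (gv n) x
  have h2 := gv_norm_le n
  have h3 := norm_nonneg x
  nlinarith

/-- P1 -/
lemma P1 (x : H) (hx : x ≠ 0) : {n | fv n x = 0}.Finite := by
  classical
  have hex : ∃ k, x k ≠ 0 := by
    by_contra hcon
    push Not at hcon
    apply hx
    ext k
    simpa using hcon k
  obtain ⟨k0, hk0, hmin⟩ : ∃ k, x k ≠ 0 ∧ ∀ j < k, x j = 0 :=
    ⟨Nat.find hex, Nat.find_spec hex, fun j hj => by
      have := Nat.find_min hex hj
      simpa using this⟩
  -- if fv n x = 0 then |x k0| ≤ 2 ‖x‖ tt n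
  have hkey : ∀ n, fv n x = 0 → |x k0| ≤ 2 * ‖x‖ * tt n := by
    intro n hn
    have hs := fv_hasSum n x
    rw [hn] at hs
    have ht := tt_pos n
    have ht2 := tt_le n
    -- remove the first k0 terms
    have h1 : HasSum (fun k => x (k + k0) * tt n ^ (k + k0)) 0 := by
      have := (hasSum_nat_add_iff' k0).mpr hs
      have h0 : ∑ i ∈ Finset.range k0, x i * tt n ^ i = 0 := by
        apply Finset.sum_eq_zero
        intro i hi
        rw [hmin i (Finset.mem_range.mp hi), zero_mul]
      rwa [h0, sub_zero] at this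
    have h2 : HasSum (fun k => x (k + k0) * tt n ^ k) 0 := by
      have := h1.mul_left ((tt n ^ k0)⁻¹)
      rw [mul_zero] at this
      have e : (fun k => (tt n ^ k0)⁻¹ * (x (k + k0) * tt n ^ (k + k0))) =
          fun k => x (k + k0) * tt n ^ k := by
        funext k
        rw [pow_add]
        field_simp
      rwa [e] at this
    have h3 : HasSum (fun k => x (k + 1 + k0) * tt n ^ (k + 1)) (- x k0) := by
      have := (hasSum_nat_add_iff' 1).mpr h2
      simpa using this
    have h4 : Summable (fun k : ℕ => ‖x‖ * tt n * (1 / 2) ^ k) :=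
      summable_geometric_two.mul_left _
    have h5 : ‖- x k0‖ ≤ ∑' k : ℕ, ‖x‖ * tt n * (1 / 2 : ℝ) ^ k := by
      rw [← h3.tsum_eq]
      apply tsum_of_norm_bounded h4.hasSum
      intro k
      rw [norm_mul, pow_succ, norm_mul, norm_pow]
      have e1 : ‖x (k + 1 + k0)‖ ≤ ‖x‖ := lp.norm_apply_le_norm (by norm_num) x _
      have e2 : ‖tt n‖ = tt n := by rw [Real.norm_eq_abs, abs_of_pos ht]
      rw [e2]
      have e3 : tt n ^ k ≤ (1 / 2) ^ k := pow_le_pow_left₀ ht.le ht2 k
      calc ‖x (k + 1 + k0)‖ * (tt n ^ k * tt n) ≤ ‖x‖ * ((1 / 2) ^ k * tt n) := by gcongr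
        _ = ‖x‖ * tt n * (1 / 2) ^ k := by ring
    rw [tsum_mul_left, tsum_geometric_two, norm_neg, Real.norm_eq_abs] at h5
    linarith
  have hx0 : 0 < |x k0| := abs_pos.mpr hk0
  obtain ⟨B, hB⟩ := exists_nat_gt (2 * ‖x‖ / |x k0|)
  apply (Set.finite_lt_nat B).subset
  intro n hn
  have h := hkey n hn
  by_contra hge
  have hge' : B ≤ n := by
    simpa using hge
  have h1 : 2 * ‖x‖ < B * |x k0| := by rwa [div_lt_iff₀ hx0] at hB
  unfold tt at h
  have hn2 : (0 : ℝ) < (n : ℝ) + 2 := by positivity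
  rw [mul_one_div, le_div_iff₀ hn2] at h
  have h2 : (B : ℝ) ≤ n := by exact_mod_cast hge'
  nlinarith

/-- P2 -/
lemma P2 (S : Finset ℕ) (c : ℕ → ℝ) : ∃ h : H, ∀ n ∈ S, fv n h = c n := by
  classical
  let p := Lagrange.interpolate S tt c
  refine ⟨∑ k ∈ p.support, lp.single 2 k (p.coeff k), ?_⟩
  intro n hn
  rw [map_sum]
  have h1 : ∀ k, fv n (lp.single 2 k (p.coeff k)) = p.coeff k * tt n ^ k := by
    intro k
    rw [fv_apply, lp.inner_single_right]
    rfl
  simp only [h1]
  have h2 := Lagrange.eval_interpolate_at_node (s := S) (v := tt) (r := c)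
    (tt_inj.injOn) hn
  rw [Polynomial.eval_eq_sum, Polynomial.sum] at h2
  exact h2

/-- the perturbation -/
def q (x : H) : ℝ := ∑' n, (1 / 2 : ℝ) ^ n * |fv n x|

lemma q_summable (x : H) : Summable (fun n => (1 / 2 : ℝ) ^ n * |fv n x|) := by
  refine Summable.of_nonneg_of_le (fun n => by positivity) (fun n => ?_)
    (summable_geometric_two.mul_right (2 * ‖x‖))
  exact mul_le_mul_of_nonneg_left (fv_abs_le n x) (by positivity)

lemma q_nonneg (x : H) : 0 ≤ q x := tsum_nonneg (fun n => by positivity)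

lemma q_le (x : H) : q x ≤ 4 * ‖x‖ := by
  unfold q
  have h : ∑' n : ℕ, (1 / 2 : ℝ) ^ n * (2 * ‖x‖) = 4 * ‖x‖ := by
    rw [tsum_mul_right, tsum_geometric_two]; ring
  rw [← h]
  refine (q_summable x).tsum_le_tsum (fun n => ?_) (summable_geometric_two.mul_right _)
  exact mul_le_mul_of_nonneg_left (fv_abs_le n x) (by positivity)

lemma q_add (x y : H) : q (x + y) ≤ q x + q y := by
  unfold q
  rw [← (q_summable x).tsum_add (q_summable y)]
  refine (q_summable _).tsum_le_tsum (fun n => ?_) ((q_summable x).add (q_summable y))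
  rw [map_add, ← mul_add]
  exact mul_le_mul_of_nonneg_left (abs_add_le _ _) (by positivity)

lemma q_smul (c : ℝ) (x : H) : q (c • x) = |c| * q x := by
  unfold q
  rw [← tsum_mul_left]
  congr 1
  funext n
  rw [map_smul, smul_eq_mul, abs_mul]
  ring

lemma q_zero : q 0 = 0 := by
  have := q_smul 0 0
  simpa using this

lemma q_neg (x : H) : q (-x) = q x := by
  have := q_smul (-1) x
  simpa using this

/-- The space of the example: `ℓ²` with a new norm. -/
def E : Type := H

instance : AddCommGroup E := inferInstanceAs (AddCommGroup H)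

instance : Module ℝ E := inferInstanceAs (Module ℝ H)

/-- the identity map -/
def toH : E ≃ₗ[ℝ] H := LinearEquiv.refl ℝ H

/-- the new norm `‖x‖ + q x` -/
def nE : AddGroupNorm E where
  toFun x := ‖toH x‖ + q (toH x)
  map_zero' := by rw [map_zero, norm_zero, q_zero, add_zero]
  add_le' x y := by
    rw [map_add]
    have := norm_add_le (toH x) (toH y)
    have := q_add (toH x) (toH y)
    linarith
  neg' x := by rw [map_neg, norm_neg, q_neg]
  eq_zero_of_map_eq_zero' x hx := by
    have h1 := norm_nonneg (toH x)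
    have h2 := q_nonneg (toH x)
    have h3 : ‖toH x‖ = 0 := by linarith
    rw [norm_eq_zero] at h3
    exact (LinearEquiv.map_eq_zero_iff toH).mp h3

instance : NormedAddCommGroup E := nE.toNormedAddCommGroup

lemma norm_E (x : E) : ‖x‖ = ‖toH x‖ + q (toH x) := rfl

instance : NormedSpace ℝ E where
  norm_smul_le c x := by
    rw [norm_E, norm_E, map_smul, norm_smul, q_smul, Real.norm_eq_abs, mul_add]

/-- the identity is an isomorphism of normed spaces -/
def toHL : E ≃L[ℝ] H :=
  toH.toContinuousLinearEquivOfBounds 1 5 (fun x => by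
    rw [norm_E, one_mul]
    have := q_nonneg (toH x)
    linarith) (fun y => by
    rw [norm_E, LinearEquiv.apply_symm_apply]
    have := q_le y
    linarith)

lemma toHL_apply (x : E) : toHL x = toH x := rfl

instance : CompleteSpace E :=
  (completeSpace_congr (e := toHL.toEquiv) toHL.isUniformEmbedding).mpr inferInstance

/-- the standard Hilbert basis of `ℓ²` -/
def bb : HilbertBasis ℕ ℝ H := ⟨LinearIsometryEquiv.refl ℝ H⟩

lemma bb_apply (k : ℕ) : bb k = lp.single 2 k (1 : ℝ) := by
  have := bb.repr_self k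
  exact this

instance : TopologicalSpace.SeparableSpace H := by
  rw [← TopologicalSpace.isSeparable_univ_iff]
  have h1 : TopologicalSpace.IsSeparable (Set.range bb) := (Set.countable_range bb).isSeparable
  have h2 := (h1.span (R := ℝ)).closure
  have h3 : closure (Submodule.span ℝ (Set.range bb) : Set H) = Set.univ := by
    have := bb.dense_span
    rw [← Submodule.topologicalClosure_coe, this]
    rfl
  rwa [h3] at h2

instance : TopologicalSpace.SeparableSpace E :=
  toHL.symm.surjective.denseRange.separableSpace toHL.symm.continuous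

end

end Pool.Agent.PAP
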