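import Mathlib
import Pool.Agent.PAP.Space

set_option autoImplicit false

open Filter Topology

namespace Pool.Agent.PAP

noncomputable section

/-- the kink term -/
def kt (x h : H) (n : ℕ) : ℝ := (1 / 2 : ℝ) ^ n * (if fv n x = 0 then 2 * |fv n h| else 0)

lemma kt_nonneg (x h : H) (n : ℕ) : 0 ≤ kt x h n := by
  unfold kt
  split_ifs <;> positivity

lemma kt_summable (x h : H) : Summable (kt x h) := by
  refine Summable.of_nonneg_of_le (kt_nonneg x h) (fun n => ?_) ((q_summable h).mul_left 2)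
  unfold kt
  split_ifs
  · linarith
  · rw [mul_zero]; positivity

lemma hilbert_part (x h : H) (hx : x ≠ 0) :
    Tendsto (fun t : ℝ => (‖x + t • h‖ + ‖x - t • h‖ - 2 * ‖x‖) / t) (𝓝[>] 0) (𝓝 0) := by
  have hd : DifferentiableAt ℝ (fun t : ℝ => ‖x + t • h‖) 0 := by
    apply DifferentiableAt.norm (𝕜 := ℝ)
    · fun_prop
    · simpa using hx
  have h1 := hd.hasDerivAt.tendsto_slope_zero_right
  have hd2 : DifferentiableAt ℝ (fun t : ℝ => ‖x - t • h‖) 0 := by
    apply DifferentiableAt.norm (𝕜 := ℝ)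
    · fun_prop
    · simpa using hx
  have h2 := hd2.hasDerivAt.tendsto_slope_zero_right
  -- relate the derivatives
  have h3 : deriv (fun t : ℝ => ‖x - t • h‖) 0 = - deriv (fun t : ℝ => ‖x + t • h‖) 0 := by
    have e : (fun t : ℝ => ‖x - t • h‖) = fun t : ℝ => (fun s : ℝ => ‖x + s • h‖) (-t) := by
      funext t
      simp only [neg_smul, sub_eq_add_neg]
    have h5 := deriv_comp_neg (fun s : ℝ => ‖x + s • h‖) (0 : ℝ)
    rw [neg_zero] at h5
    rw [e]
    exact h5
  rw [h3] at h2
  have h4 := h1.add h2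
  rw [add_neg_cancel] at h4
  refine h4.congr ?_
  intro t
  simp only [zero_add, zero_smul, add_zero, sub_zero, smul_eq_mul]
  ring

lemma scalar_bound (a b : ℝ) {t : ℝ} (ht : 0 < t) :
    |(|a + t * b| + |a - t * b| - 2 * |a|) / t| ≤ 2 * |b| := by
  rw [abs_div, abs_of_pos ht, div_le_iff₀ ht]
  have h1 : |(|a + t * b| - |a|)| ≤ |t * b| := by
    have := abs_abs_sub_abs_le_abs_sub (a + t * b) a
    simpa using this
  have h2 : |(|a - t * b| - |a|)| ≤ |t * b| := by
    have := abs_abs_sub_abs_le_abs_sub (a - t * b) a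
    simpa using this
  have h3 : |a + t * b| + |a - t * b| - 2 * |a| = (|a + t * b| - |a|) + (|a - t * b| - |a|) := by
    ring
  rw [h3]
  refine (abs_add_le _ _).trans ?_
  rw [abs_mul, abs_of_pos ht] at h1 h2
  linarith

lemma scalar_lim (a b : ℝ) :
    Tendsto (fun t : ℝ => (|a + t * b| + |a - t * b| - 2 * |a|) / t) (𝓝[>] 0)
      (𝓝 (if a = 0 then 2 * |b| else 0)) := by
  by_cases ha : a = 0
  · rw [if_pos ha, ha]
    refine tendsto_const_nhds.congr' ?_
    filter_upwards [self_mem_nhdsWithin] with t ht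
    have ht' : (0 : ℝ) < t := ht
    rw [zero_add, zero_sub, abs_neg, abs_mul, abs_of_pos ht', abs_zero]
    field_simp
    ring
  · rw [if_neg ha]
    refine tendsto_const_nhds.congr' ?_
    have hc : Tendsto (fun t : ℝ => |t * b|) (𝓝[>] 0) (𝓝 0) := by
      have : Continuous (fun t : ℝ => |t * b|) := by fun_prop
      have h := this.tendsto 0
      simp only [zero_mul, abs_zero] at h
      exact h.mono_left nhdsWithin_le_nhds
    have hev : ∀ᶠ t in 𝓝[>] (0 : ℝ), |t * b| < |a| := hc.eventually (gt_mem_nhds (abs_pos.mpr ha))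
    filter_upwards [hev] with t ht
    have : |a + t * b| + |a - t * b| - 2 * |a| = 0 := by
      rcases lt_or_gt_of_ne ha with h | h
      · rw [abs_of_neg h] at ht ⊢
        have h1 := abs_lt.mp ht
        rw [abs_of_neg (by linarith [h1.2]), abs_of_neg (by linarith [h1.1])]
        ring
      · rw [abs_of_pos h] at ht ⊢
        have h1 := abs_lt.mp ht
        rw [abs_of_pos (by linarith [h1.1]), abs_of_pos (by linarith [h1.2])]
        ring
    rw [this, zero_div]

lemma q_part (x h : H) :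
    Tendsto (fun t : ℝ => (q (x + t • h) + q (x - t • h) - 2 * q x) / t) (𝓝[>] 0)
      (𝓝 (∑' n, kt x h n)) := by
  have key : Tendsto (fun t : ℝ => ∑' n, (1 / 2 : ℝ) ^ n *
      ((|fv n x + t * fv n h| + |fv n x - t * fv n h| - 2 * |fv n x|) / t)) (𝓝[>] 0)
      (𝓝 (∑' n, kt x h n)) := by
    apply tendsto_tsum_of_dominated_convergence (bound := fun n => 2 * ((1 / 2 : ℝ) ^ n * |fv n h|))
      ((q_summable h).mul_left 2)
    · intro n
      exact (scalar_lim _ _).const_mul _
    · filter_upwards [self_mem_nhdsWithin] with t ht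
      intro n
      rw [norm_mul, Real.norm_eq_abs, Real.norm_eq_abs, abs_of_nonneg (by positivity)]
      have := scalar_bound (fv n x) (fv n h) ht
      calc (1 / 2 : ℝ) ^ n * _ ≤ (1 / 2 : ℝ) ^ n * (2 * |fv n h|) :=
            mul_le_mul_of_nonneg_left this (by positivity)
        _ = 2 * ((1 / 2 : ℝ) ^ n * |fv n h|) := by ring
  refine key.congr ?_
  intro t
  unfold q
  have s1 := q_summable (x + t • h)
  have s2 := q_summable (x - t • h)
  have s3 := (q_summable x).mul_left 2
  rw [← s1.tsum_add s2, ← tsum_mul_left, ← (s1.add s2).tsum_sub s3, ← tsum_div_const]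
  congr 1
  funext n
  rw [map_add, map_sub, map_smul, smul_eq_mul]
  ring

lemma lim_E (x h : E) (hx : x ≠ 0) :
    Tendsto (fun t : ℝ => (‖x + t • h‖ + ‖x - t • h‖ - 2 * ‖x‖) / t) (𝓝[>] 0)
      (𝓝 (∑' n, kt (toH x) (toH h) n)) := by
  have hx' : toH x ≠ 0 := by
    intro h0
    exact hx ((LinearEquiv.map_eq_zero_iff toH).mp h0)
  have h1 := (hilbert_part (toH x) (toH h) hx').add (q_part (toH x) (toH h))
  rw [zero_add] at h1
  refine h1.congr ?_
  intro t
  rw [norm_E, norm_E, norm_E, map_add, map_sub, map_smul]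
  ring

/-- the kink inequality -/
lemma kink (u : E →L[ℝ] E) (hu : ‖u‖ ≤ 1) (x : E) (hx : x ≠ 0) (hux : u x = x) (h : E)
    (hh : ∀ n, fv n (toH x) = 0 → fv n (toH h) = 0) :
    ∀ n, fv n (toH x) = 0 → fv n (toH (u h)) = 0 := by
  have h1 := lim_E x h hx
  have h2 := lim_E x (u h) hx
  have hle : ∑' n, kt (toH x) (toH (u h)) n ≤ ∑' n, kt (toH x) (toH h) n := by
    apply le_of_tendsto_of_tendsto h2 h1
    filter_upwards [self_mem_nhdsWithin] with t ht
    have ht' : (0 : ℝ) < t := ht
    have e1 : ‖x + t • u h‖ ≤ ‖x + t • h‖ := by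
      have : x + t • u h = u (x + t • h) := by rw [map_add, map_smul, hux]
      rw [this]
      exact (u.le_opNorm _).trans (mul_le_of_le_one_left (norm_nonneg _) hu)
    have e2 : ‖x - t • u h‖ ≤ ‖x - t • h‖ := by
      have : x - t • u h = u (x - t • h) := by rw [map_sub, map_smul, hux]
      rw [this]
      exact (u.le_opNorm _).trans (mul_le_of_le_one_left (norm_nonneg _) hu)
    show (‖x + t • u h‖ + ‖x - t • u h‖ - 2 * ‖x‖) / t ≤
      (‖x + t • h‖ + ‖x - t • h‖ - 2 * ‖x‖) / t
    gcongr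
  have h0 : ∑' n, kt (toH x) (toH h) n = 0 := by
    have : kt (toH x) (toH h) = fun _ => 0 := by
      funext n
      unfold kt
      split_ifs with hn
      · rw [hh n hn]; simp
      · simp
    rw [this, tsum_zero]
  rw [h0] at hle
  intro n hn
  have h3 : kt (toH x) (toH (u h)) n ≤ 0 := by
    refine le_trans ?_ hle
    exact (kt_summable _ _).le_tsum n (fun j _ => kt_nonneg _ _ j)
  unfold kt at h3
  rw [if_pos hn] at h3
  have h4 : (0 : ℝ) < (1 / 2 : ℝ) ^ n := by positivity
  have h5 : 2 * |fv n (toH (u h))| ≤ 0 := by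
    by_contra hcon
    push Not at hcon
    have := mul_pos h4 hcon
    linarith
  have h6 := abs_nonneg (fv n (toH (u h)))
  exact abs_eq_zero.mp (by linarith)

end

end Pool.Agent.PAP
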