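import Mathlib
import Pool.Agent.PAP.Kink

set_option autoImplicit false

open Filter Topology

namespace Pool.Agent.PAP

noncomputable section

/-- the subspaces spanned by the first `N` basis vectors -/
def VN (N : ℕ) : Submodule ℝ H := Submodule.span ℝ (bb '' {k | k < N})

instance (N : ℕ) : FiniteDimensional ℝ (VN N) := by
  unfold VN
  exact FiniteDimensional.span_of_finite ℝ ((Set.finite_lt_nat N).image _)

lemma VN_mono : Monotone VN := by
  intro a b h
  unfold VN
  apply Submodule.span_mono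
  apply Set.image_mono
  intro k hk
  exact lt_of_lt_of_le hk h

lemma VN_dense : ⊤ ≤ (⨆ N, VN N).topologicalClosure := by
  rw [← bb.dense_span]
  apply Submodule.topologicalClosure_mono
  rw [Submodule.span_le]
  rintro _ ⟨k, rfl⟩
  apply Submodule.mem_iSup_of_mem (k + 1)
  unfold VN
  apply Submodule.subset_span
  exact ⟨k, Nat.lt_succ_self k, rfl⟩

/-- projections on `H` -/
def PH (N : ℕ) : H →L[ℝ] H := (VN N).starProjection

lemma PH_tendsto (x : H) : Tendsto (fun N => PH N x) atTop (𝓝 x) :=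
  Submodule.starProjection_tendsto_self VN VN_mono x VN_dense

lemma PH_norm (N : ℕ) (x : H) : ‖PH N x‖ ≤ ‖x‖ := by
  unfold PH
  exact (VN N).norm_starProjection_apply_le x

lemma PH_idem (N : ℕ) (x : H) : PH N (PH N x) = PH N x := by
  unfold PH
  exact Submodule.starProjection_eq_self_iff.mpr (Submodule.starProjection_apply_mem _ _)

/-- the error `δ_N` -/
def dl (N : ℕ) : ℝ := ∑' n, (1 / 2 : ℝ) ^ n * ‖gv n - PH N (gv n)‖

lemma dl_term (N n : ℕ) : (1 / 2 : ℝ) ^ n * ‖gv n - PH N (gv n)‖ ≤ (1 / 2 : ℝ) ^ n * 4 := by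
  apply mul_le_mul_of_nonneg_left _ (by positivity)
  have h1 := norm_sub_le (gv n) (PH N (gv n))
  have h2 := PH_norm N (gv n)
  have h3 := gv_norm_le n
  linarith

lemma dl_summable (N : ℕ) : Summable (fun n => (1 / 2 : ℝ) ^ n * ‖gv n - PH N (gv n)‖) :=
  Summable.of_nonneg_of_le (fun n => by positivity) (dl_term N) (summable_geometric_two.mul_right 4)

lemma dl_tendsto : Tendsto dl atTop (𝓝 0) := by
  have h : Tendsto (fun N => ∑' n, (1 / 2 : ℝ) ^ n * ‖gv n - PH N (gv n)‖) atTop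
      (𝓝 (∑' n : ℕ, (0 : ℝ))) := by
    apply tendsto_tsum_of_dominated_convergence (bound := fun n => (1 / 2 : ℝ) ^ n * 4)
      (summable_geometric_two.mul_right 4)
    · intro n
      have h1 := (PH_tendsto (gv n)).const_sub (gv n)
      rw [sub_self] at h1
      have h2 := h1.norm.const_mul ((1 / 2 : ℝ) ^ n)
      simpa using h2
    · filter_upwards with N
      intro n
      rw [Real.norm_eq_abs, abs_of_nonneg (by positivity)]
      exact dl_term N n
  rw [tsum_zero] at h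
  exact h

lemma q_sub_PH (N : ℕ) (x : H) : q (x - PH N x) ≤ dl N * ‖x‖ := by
  unfold q dl
  rw [← tsum_mul_right]
  refine (q_summable _).tsum_le_tsum (fun n => ?_) ((dl_summable N).mul_right _)
  rw [mul_assoc]
  apply mul_le_mul_of_nonneg_left _ (by positivity)
  have e : fv n (x - PH N x) = inner ℝ (gv n - PH N (gv n)) x := by
    rw [fv_apply, inner_sub_right, inner_sub_left]
    congr 1
    unfold PH
    exact (Submodule.inner_starProjection_left_eq_right _ _ _).symm
  rw [e]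
  exact abs_real_inner_le_norm _ _

/-- projections on `E` -/
def PE (N : ℕ) : E →L[ℝ] E :=
  (toHL.symm : H →L[ℝ] E).comp ((PH N).comp (toHL : E →L[ℝ] H))

lemma toH_PE (N : ℕ) (x : E) : toH (PE N x) = PH N (toH x) := rfl

lemma dl_nonneg (N : ℕ) : 0 ≤ dl N := tsum_nonneg (fun n => by positivity)

lemma PE_norm (N : ℕ) : ‖PE N‖ ≤ 1 + dl N := by
  apply ContinuousLinearMap.opNorm_le_bound _ (by have := dl_nonneg N; linarith)
  intro x
  rw [norm_E, norm_E, toH_PE]
  have h1 := PH_norm N (toH x)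
  have h2 : q (PH N (toH x)) ≤ q (toH x) + q (toH x - PH N (toH x)) := by
    have h3 := q_add (toH x) (-(toH x - PH N (toH x)))
    rw [q_neg] at h3
    have e : toH x + -(toH x - PH N (toH x)) = PH N (toH x) := by abel
    rwa [e] at h3
  have h4 := q_sub_PH N (toH x)
  have h5 := dl_nonneg N
  have h6 := q_nonneg (toH x)
  nlinarith [mul_nonneg h5 h6]

lemma PE_tendsto (x : E) : Tendsto (fun N => ‖PE N x - x‖) atTop (𝓝 0) := by
  have h1 : Tendsto (fun N => 5 * ‖PH N (toH x) - toH x‖) atTop (𝓝 0) := by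
    have := ((PH_tendsto (toH x)).sub_const (toH x)).norm.const_mul 5
    simpa using this
  refine squeeze_zero (fun N => norm_nonneg _) (fun N => ?_) h1
  rw [norm_E, map_sub, toH_PE]
  have := q_le (PH N (toH x) - toH x)
  linarith

lemma PE_idem (N : ℕ) : (PE N).comp (PE N) = PE N := by
  ext x
  apply toH.injective
  show toH (PE N (PE N x)) = toH (PE N x)
  rw [toH_PE, toH_PE, PH_idem]

lemma PE_range (N : ℕ) : FiniteDimensional ℝ (LinearMap.range (PE N : E →ₗ[ℝ] E)) := by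
  have h1 : LinearMap.range (PE N : E →ₗ[ℝ] E) ≤ (VN N).map (toH.symm : H →ₗ[ℝ] E) := by
    rintro _ ⟨x, rfl⟩
    refine ⟨PH N (toH x), ?_, ?_⟩
    · unfold PH
      exact Submodule.starProjection_apply_mem _ _
    · rfl
  exact Submodule.finiteDimensional_of_le h1

/-- `E` has the `(1+δ)`-PAP for all `δ > 0`. -/
lemma pap_delta (δ : ℝ) (hδ : 0 < δ) (Q : Set E) (hQ : IsCompact Q) (ε : ℝ) (hε : 0 < ε) :
    ∃ u : E →L[ℝ] E, FiniteDimensional ℝ (LinearMap.range (u : E →ₗ[ℝ] E)) ∧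
      u.comp u = u ∧ ‖u‖ ≤ 1 + δ ∧ ∀ x ∈ Q, ‖u x - x‖ ≤ ε := by
  -- finite net
  have hC : 0 < ε / (4 + 2 * δ) := by positivity
  obtain ⟨t, htQ, htfin, hcov⟩ := hQ.finite_cover_balls hC
  have h1 : ∀ᶠ N in atTop, dl N ≤ δ := dl_tendsto.eventually (ge_mem_nhds hδ)
  have h2 : ∀ᶠ N in atTop, ∀ y ∈ t, ‖PE N y - y‖ ≤ ε / 2 := by
    rw [htfin.eventually_all]
    intro y _
    exact (PE_tendsto y).eventually (ge_mem_nhds (by positivity))
  obtain ⟨N, hN1, hN2⟩ := (h1.and h2).exists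
  have hn : ‖PE N‖ ≤ 1 + δ := (PE_norm N).trans (by linarith)
  refine ⟨PE N, PE_range N, PE_idem N, hn, ?_⟩
  intro x hx
  obtain ⟨y, hy, hxy⟩ : ∃ y ∈ t, x ∈ Metric.ball y (ε / (4 + 2 * δ)) := by
    have := hcov hx
    simpa using this
  have hxy' : ‖x - y‖ < ε / (4 + 2 * δ) := by rwa [Metric.mem_ball, dist_eq_norm] at hxy
  have e : PE N x - x = PE N (x - y) + (PE N y - y) + (y - x) := by
    rw [map_sub]; abel
  have h3 : ‖PE N (x - y)‖ ≤ (1 + δ) * ‖x - y‖ :=
    ((PE N).le_opNorm _).trans (mul_le_mul_of_nonneg_right hn (norm_nonneg _))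
  have h4 := hN2 y hy
  have h5 : ‖y - x‖ = ‖x - y‖ := norm_sub_rev _ _
  rw [e]
  refine (norm_add₃_le).trans ?_
  rw [lt_div_iff₀ (by positivity)] at hxy'
  nlinarith

/-- no norm-one finite rank projection near the identity -/
lemma no_pap : ¬ (∀ Q : Set E, IsCompact Q → ∀ ε : ℝ, 0 < ε →
    ∃ u : E →L[ℝ] E, FiniteDimensional ℝ (LinearMap.range (u : E →ₗ[ℝ] E)) ∧
      u.comp u = u ∧ ‖u‖ ≤ 1 ∧ ∀ x ∈ Q, ‖u x - x‖ ≤ ε) := by
  intro hall
  let e0 : E := toH.symm (lp.single 2 0 (1 : ℝ))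
  let e1 : E := toH.symm (lp.single 2 1 (1 : ℝ))
  obtain ⟨u, hfin, hcomp, hnorm, hQ⟩ := hall {e0, e1}
    ((Set.finite_singleton e1).insert e0).isCompact (1 / 4) (by norm_num)
  have hid : ∀ x, u (u x) = u x := fun x => by
    have := congrArg (fun v : E →L[ℝ] E => v x) hcomp
    exact this
  -- coordinates
  have hcoord : ∀ (x : E) (k : ℕ), |(toH x : ℕ → ℝ) k| ≤ ‖x‖ := by
    intro x k
    have h1 : ‖(toH x : ℕ → ℝ) k‖ ≤ ‖toH x‖ := lp.norm_apply_le_norm (by norm_num) (toH x) k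
    rw [norm_E]
    have := q_nonneg (toH x)
    rw [Real.norm_eq_abs] at h1
    linarith
  have h0 := hQ e0 (by simp)
  have h1 := hQ e1 (by simp)
  have c00 := (hcoord (u e0 - e0) 0).trans h0
  have c01 := (hcoord (u e0 - e0) 1).trans h0
  have c10 := (hcoord (u e1 - e1) 0).trans h1
  have c11 := (hcoord (u e1 - e1) 1).trans h1
  have s00 : (toH e0 : ℕ → ℝ) 0 = 1 := by simp [e0]
  have s01 : (toH e0 : ℕ → ℝ) 1 = 0 := by simp [e0]
  have s10 : (toH e1 : ℕ → ℝ) 0 = 0 := by simp [e1]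
  have s11 : (toH e1 : ℕ → ℝ) 1 = 1 := by simp [e1]
  have hsub : ∀ (x y : E) (k : ℕ), (toH (x - y) : ℕ → ℝ) k = (toH x : ℕ → ℝ) k - (toH y : ℕ → ℝ) k := by
    intro x y k
    rw [map_sub]; rfl
  rw [hsub, s00] at c00
  rw [hsub, s01] at c01
  rw [hsub, s10] at c10
  rw [hsub, s11] at c11
  -- independence of u e0, u e1
  have hind : ∀ a b : ℝ, a • u e0 + b • u e1 = 0 → a = 0 ∧ b = 0 := by
    intro a b hab
    have g : ∀ k, a * (toH (u e0) : ℕ → ℝ) k + b * (toH (u e1) : ℕ → ℝ) k = 0 := by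
      intro k
      have h2 : toH (a • u e0 + b • u e1) = 0 := by rw [hab, map_zero]
      rw [map_add, map_smul, map_smul] at h2
      have h3 := congrArg (fun v : H => (v : ℕ → ℝ) k) h2
      exact h3
    have g0 := g 0
    have g1 := g 1
    set p := (toH (u e0) : ℕ → ℝ) 0
    set r := (toH (u e0) : ℕ → ℝ) 1
    set s := (toH (u e1) : ℕ → ℝ) 0
    set w := (toH (u e1) : ℕ → ℝ) 1
    rw [abs_le] at c00 c01 c10 c11
    have hdet : p * w - r * s > 0 := by nlinarith [c00.1, c00.2, c01.1, c01.2, c10.1, c10.2, c11.1, c11.2]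
    constructor
    · have : a * (p * w - r * s) = 0 := by linear_combination w * g0 - s * g1
      exact (mul_eq_zero.mp this).resolve_right hdet.ne'
    · have : b * (p * w - r * s) = 0 := by linear_combination (-r) * g0 + p * g1
      exact (mul_eq_zero.mp this).resolve_right hdet.ne'
  -- apply the core
  refine core (V := E) (fun n => (fv n : H →ₗ[ℝ] ℝ).comp (toH : E →ₗ[ℝ] H)) (u : E →ₗ[ℝ] E) hfin
    ?_ ?_ ?_ ?_
  · intro x hx
    apply P1 (toH x)
    intro h0
    exact hx ((LinearEquiv.map_eq_zero_iff toH).mp h0)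
  · intro S c
    obtain ⟨h, hh⟩ := P2 S c
    exact ⟨toH.symm h, fun n hn => hh n hn⟩
  · intro x hx hux h hh n hn
    exact kink u hnorm x hx hux h hh n hn
  · intro m
    by_cases hm : fv m (toH (u e0)) = 0
    · refine ⟨u e0, ?_, hid e0, hm⟩
      intro h0
      have := (hind 1 0 (by rw [h0]; simp)).1
      exact one_ne_zero this
    · refine ⟨fv m (toH (u e1)) • u e0 + (- fv m (toH (u e0))) • u e1, ?_, ?_, ?_⟩
      · intro h0
        have := (hind _ _ h0).2
        exact hm (neg_eq_zero.mp this)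
      · show u (_ • u e0 + _ • u e1) = _
        rw [map_add, map_smul, map_smul, hid, hid]
      · show fv m (toH (_ • u e0 + _ • u e1)) = 0
        rw [map_add, map_smul, map_smul, map_add, map_smul, map_smul, smul_eq_mul, smul_eq_mul]
        ring

end

end Pool.Agent.PAP
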